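import Mathlib
import Pool.Agent.H.MP_12cd8a_lc.A

namespace Pool.Agent.Results.MP_12cd8a_lc.No
open Set Filter Topology

def Ls (a b : Ordinal.{0}) : Prop :=
  ∀ η : Ordinal.{0}, 1 ≤ η → η < Ordinal.omega 1 → b ≤ Ordinal.omega0 ^ η → a ≤ Ordinal.omega0 ^ η

def Ap (a b : Ordinal.{0}) : Prop := Ls a b ∧ Ls b a

def BB1 {X : Type} [TopologicalSpace X] (f : X → ℝ) : Prop :=
  (∃ M : ℝ, ∀ x, |f x| ≤ M) ∧ ∃ g : ℕ → X → ℝ, (∀ n, Continuous (g n)) ∧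
    ∀ x, Tendsto (fun n => g n x) atTop (𝓝 (f x))

def Cs {X : Type} [TopologicalSpace X] (l : Ordinal.{0}) (F : Ordinal.{0} → Set X) : Prop :=
  (∀ η, IsClosed (F η)) ∧ Antitone F ∧ F 0 = Set.univ ∧
    (∀ η, Order.IsSuccLimit η → F η = ⋂ θ < η, F θ) ∧ ∀ η, l ≤ η → F η = ∅

def Td {X : Type} (l : Ordinal.{0}) (F : Ordinal.{0} → Set X) : Set X :=
  ⋃ η < l, ⋃ (_ : 2 ∣ η), F η \ F (η + 1)

noncomputable def a1 {X : Type} [TopologicalSpace X] (B C : Set X) : Ordinal.{0} :=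
  sInf {l | ∃ F : Ordinal.{0} → Set X, Cs l F ∧ B ⊆ Td l F ∧ Disjoint (Td l F) C}

noncomputable def al {X : Type} [TopologicalSpace X] (f : X → ℝ) : Ordinal.{0} :=
  ⨆ r : {r : ℚ × ℚ // r.1 < r.2}, a1 {x | f x ≤ r.1.1} {x | (r.1.2 : ℝ) ≤ f x}

theorem result (X : Type) [TopologicalSpace X] [PolishSpace X] (ρ : (X → ℝ) → Ordinal.{0})
    (P1 : ∀ A : Set X, IsGδ A → IsGδ Aᶜ → Ap (ρ (A.indicator fun _ => 1)) (a1 A Aᶜ))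
    (P2 : (∀ f, BB1 f → ∀ c : ℝ, c ≠ 0 → Ap (ρ (c • f)) (ρ f)) ∧
      ∀ f g, BB1 f → BB1 g → Ls (ρ (f + g)) (max (ρ f) (ρ g)))
    (P3 : ∀ (F : ℕ → X → ℝ) f, (∀ n, BB1 (F n)) → BB1 f → TendstoUniformly F f atTop →
      Ls (ρ f) (⨆ n, ρ (F n)))
    (P4 : ∀ f, BB1 f → ∀ (h : ℝ → ℝ) (K : NNReal), LipschitzWith K h → Ls (ρ (h ∘ f)) (ρ f)) :
    ∀ f, BB1 f → Ap (ρ f) (al f) :=
  Pool.Agent.H.MP_12cd8a_lc.main X ρ P1 P2 P3 P4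

end Pool.Agent.Results.MP_12cd8a_lc.No
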